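import Mathlib

namespace Pool.Agent.Results.MP_2d87f2_co.NetCheeger

universe u

/-- The edges of `H` with exactly one endpoint in `A`. -/
def edgeBoundary {V : Type u} (H : SimpleGraph V) (A : Finset V) : Set (Sym2 V) :=
  {e | e ∈ H.edgeSet ∧ ∃ a ∈ A, ∃ b, b ∉ A ∧ e = s(a, b)}

/-- The Cheeger constant `h(H) = inf |∂A| / |A|` over finite nonempty sets `A` of vertices. -/
noncomputable def cheeger {V : Type u} (H : SimpleGraph V) : ℝ :=
  sInf {r : ℝ | ∃ A : Finset V, A.Nonempty ∧ r = ((edgeBoundary H A).ncard : ℝ) / (A.card : ℝ)}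

/-- `S` is a `k`-net of `G`: maximal under inclusion subject to `d(u, v) ≥ k` for all distinct
`u, v ∈ S`. -/
def IsNet {V : Type u} (G : SimpleGraph V) (k : ℕ) (S : Set V) : Prop :=
  Maximal (fun T : Set V => ∀ u ∈ T, ∀ v ∈ T, u ≠ v → k ≤ G.dist u v) S

/-- The `k`-net graph on a `k`-net `S`: distinct `u, v ∈ S` are adjacent iff `d(u, v) ≤ 2k`. -/
def netGraph {V : Type u} (G : SimpleGraph V) (k : ℕ) (S : Set V) : SimpleGraph S where
  Adj u v := u ≠ v ∧ G.dist (u : V) (v : V) ≤ 2 * k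
  symm := ⟨fun u v h => ⟨h.1.symm, by rw [SimpleGraph.dist_comm]; exact h.2⟩⟩
  loopless := ⟨fun u h => h.1 rfl⟩

/-- Letters of the free group of rank two. -/
abbrev Letter : Type := Fin 2 × Bool

abbrev F : Type := FreeGroup (Fin 2)

def ev (l : Letter) : F := FreeGroup.mk [l]

def linv (l : Letter) : Letter := (l.1, !l.2)

theorem ev_linv (l : Letter) : ev (linv l) = (ev l)⁻¹ := by
  simp [ev, linv, FreeGroup.inv_mk, FreeGroup.invRev]

/-- The first letter of the reduced word. -/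
def first (u : F) : Option Letter := u.toWord.head?

theorem first_mul (l : Letter) (u : F) : first (ev l * u) = some l ∨ first u = some (linv l) := by
  have h : (ev l * u).toWord = FreeGroup.reduce (l :: u.toWord) := by
    conv_lhs => rw [← FreeGroup.mk_toWord (x := u)]
    rw [ev, FreeGroup.mul_mk, FreeGroup.toWord_mk]
    rfl
  unfold first
  rw [h, FreeGroup.reduce.cons, FreeGroup.reduce_toWord]
  cases hu : u.toWord with
  | nil => left; rfl
  | cons hd tl =>
    by_cases hc : l.1 = hd.1 ∧ l.2 = !hd.2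
    · right
      simp only [List.head?_cons, linv]
      congr 1
      ext
      · simp [hc.1]
      · simp [hc.2]
    · left
      simp [hc]

theorem toWord_ev (l : Letter) : (ev l).toWord = [l] := by
  simp [ev, FreeGroup.toWord_mk]

theorem ev_injective : Function.Injective ev := by
  intro l l' h
  have := congrArg FreeGroup.toWord h
  rw [toWord_ev, toWord_ev] at this
  exact List.head_eq_of_cons_eq this

theorem ev_ne_one (l : Letter) : ev l ≠ 1 := by
  intro h
  have := congrArg FreeGroup.toWord h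
  rw [toWord_ev, FreeGroup.toWord_one] at this
  exact absurd this (by simp)

/-- The `4`-regular tree with every vertex replaced by a clique on `m` vertices, and all edges
between neighbouring cliques. -/
def blowUp (m : ℕ) : SimpleGraph (F × Fin m) where
  Adj p q := (p.1 = q.1 ∧ p.2 ≠ q.2) ∨ ∃ l : Letter, q.1 = ev l * p.1
  symm := ⟨by
    rintro p q (h | ⟨l, hl⟩)
    · exact Or.inl ⟨h.1.symm, h.2.symm⟩
    · refine Or.inr ⟨linv l, ?_⟩
      rw [hl, ev_linv, inv_mul_cancel_left]⟩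
  loopless := ⟨by
    rintro p (h | ⟨l, hl⟩)
    · exact h.2 rfl
    · exact ev_ne_one l (mul_eq_right.mp hl.symm)⟩

theorem blowUp_adj {m : ℕ} {p q : F × Fin m} :
    (blowUp m).Adj p q ↔ (p.1 = q.1 ∧ p.2 ≠ q.2) ∨ ∃ l : Letter, q.1 = ev l * p.1 := Iff.rfl

theorem reachable_one {m : ℕ} (u : F) (i : Fin m) : (blowUp m).Reachable (1, i) (u, i) := by
  rw [← FreeGroup.mk_toWord (x := u)]
  induction u.toWord with
  | nil => exact SimpleGraph.Reachable.refl _
  | cons l L ih =>
    refine ih.trans (SimpleGraph.Adj.reachable ?_)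
    refine Or.inr ⟨l, ?_⟩
    simp [ev, FreeGroup.mul_mk]

theorem connected {m : ℕ} (hm : 0 < m) : (blowUp m).Connected := by
  have : Nonempty (F × Fin m) := ⟨(1, ⟨0, hm⟩)⟩
  refine ⟨?_⟩
  rintro ⟨u, i⟩ ⟨v, j⟩
  refine (reachable_one u i).symm.trans (SimpleGraph.Reachable.trans ?_ (reachable_one v j))
  by_cases hij : i = j
  · rw [hij]
  · exact SimpleGraph.Adj.reachable (Or.inl ⟨rfl, hij⟩)

/-- Multiply by a letter, or do nothing. -/
def step : Option Letter → F → F
  | none, u => u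
  | some l, u => ev l * u

theorem locallyFinite (m : ℕ) (p : F × Fin m) : ((blowUp m).neighborSet p).Finite := by
  refine (Set.finite_range fun t : Option Letter × Fin m => (step t.1 p.1, t.2)).subset ?_
  rintro ⟨v, j⟩ h
  rcases h with h | ⟨l, hl⟩
  · exact ⟨(none, j), Prod.ext h.1 rfl⟩
  · exact ⟨(some l, j), Prod.ext hl.symm rfl⟩

theorem transitive (m : ℕ) (p q : F × Fin m) : ∃ φ : blowUp m ≃g blowUp m, φ p = q := by
  refine ⟨⟨Equiv.prodCongr (Equiv.mulRight (p.1⁻¹ * q.1)) (Equiv.swap p.2 q.2), ?_⟩, ?_⟩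
  · intro a b
    simp only [blowUp_adj, Equiv.prodCongr_apply, Prod.map_fst, Prod.map_snd, Equiv.coe_mulRight,
      ← mul_assoc, mul_left_inj, ne_eq, EmbeddingLike.apply_eq_iff_eq]
  · apply Prod.ext
    · simp
    · simp

/-- The ball of radius `n` around `u` in the tree. -/
def ball : ℕ → F → Finset F
  | 0, u => {u}
  | n + 1, u => Finset.image₂ step Finset.univ (ball n u)

theorem card_ball (n : ℕ) (u : F) : (ball n u).card ≤ 5 ^ n := by
  induction n with
  | zero => simp [ball]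
  | succ n ih =>
    have h1 := Finset.card_image₂_le step (Finset.univ : Finset (Option Letter)) (ball n u)
    have h2 : (Finset.univ : Finset (Option Letter)).card = 5 := rfl
    rw [h2] at h1
    calc (ball (n + 1) u).card ≤ 5 * (ball n u).card := h1
      _ ≤ 5 * 5 ^ n := Nat.mul_le_mul_left _ ih
      _ = 5 ^ (n + 1) := by ring

theorem mem_ball_self (n : ℕ) (u : F) : u ∈ ball n u := by
  induction n with
  | zero => simp [ball]
  | succ n ih => exact Finset.mem_image₂.mpr ⟨none, Finset.mem_univ _, u, ih, rfl⟩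

theorem mem_ball_of_walk {m : ℕ} {p q : F × Fin m} (w : (blowUp m).Walk p q) :
    ∀ n : ℕ, w.length ≤ n → p.1 ∈ ball n q.1 := by
  induction w with
  | nil => intro n _; exact mem_ball_self _ _
  | cons h w ih =>
    intro n hn
    rw [SimpleGraph.Walk.length_cons] at hn
    obtain ⟨n, rfl⟩ : ∃ k, n = k + 1 := ⟨n - 1, by omega⟩
    have h1 := ih n (by omega)
    rcases h with h | ⟨l, hl⟩
    · exact Finset.mem_image₂.mpr ⟨none, Finset.mem_univ _, _, h1, h.1.symm⟩
    · refine Finset.mem_image₂.mpr ⟨some (linv l), Finset.mem_univ _, _, h1, ?_⟩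
      change ev (linv l) * _ = _
      rw [hl, ev_linv, inv_mul_cancel_left]

theorem mem_ball_of_dist {m : ℕ} (hm : 0 < m) {p q : F × Fin m} {n : ℕ}
    (h : (blowUp m).dist p q ≤ n) : p.1 ∈ ball n q.1 := by
  obtain ⟨w, hw⟩ := (connected hm).exists_walk_length_eq_dist p q
  exact mem_ball_of_walk w n (hw ▸ h)

/-- Two points of a `k`-net with `k ≥ 2` lie in different cliques. -/
theorem net_fiber {m k : ℕ} (hk : 2 ≤ k) {S : Set (F × Fin m)} (hS : IsNet (blowUp m) k S)
    {p q : F × Fin m} (hp : p ∈ S) (hq : q ∈ S) (h : p.1 = q.1) : p = q := by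
  by_contra hne
  have h1 := hS.1 p hp q hq hne
  have h2 : (blowUp m).Adj p q := Or.inl ⟨h, fun h2 => hne (Prod.ext h h2)⟩
  rw [SimpleGraph.dist_eq_one_iff_adj.mpr h2] at h1
  omega

theorem exists_net {V : Type u} (G : SimpleGraph V) (k : ℕ) : ∃ S, IsNet G k S := by
  obtain ⟨S, hS⟩ := zorn_subset
    {T : Set V | ∀ u ∈ T, ∀ v ∈ T, u ≠ v → k ≤ G.dist u v} (by
      intro c hc hchain
      refine ⟨⋃₀ c, ?_, fun s hs => Set.subset_sUnion_of_mem hs⟩
      rintro u ⟨s, hs, hus⟩ v ⟨t, ht, hvt⟩ huv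
      rcases hchain.total hs ht with h | h
      · exact hc ht u (h hus) v hvt huv
      · exact hc hs u hus v (h hvt) huv)
  exact ⟨S, hS⟩

theorem net_nonempty {V : Type u} [Nonempty V] {G : SimpleGraph V} {k : ℕ} {S : Set V}
    (hS : IsNet G k S) : S.Nonempty := by
  by_contra h
  rw [Set.not_nonempty_iff_eq_empty] at h
  obtain ⟨v⟩ := ‹Nonempty V›
  have h1 := hS.2 (y := {v}) (by
    intro a ha b hb hab
    exact absurd ((Set.mem_singleton_iff.mp ha).trans (Set.mem_singleton_iff.mp hb).symm) hab)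
    (by rw [h]; exact Set.empty_subset _)
  have h2 : v ∈ S := h1 rfl
  rw [h] at h2
  exact h2

theorem edgeBoundary_eq {V : Type u} (H : SimpleGraph V) (A : Finset V) :
    edgeBoundary H A = (fun p : V × V => s(p.1, p.2)) '' {p | p.1 ∈ A ∧ p.2 ∉ A ∧ H.Adj p.1 p.2} := by
  ext e
  constructor
  · rintro ⟨he, a, ha, b, hb, rfl⟩
    exact ⟨(a, b), ⟨ha, hb, he⟩, rfl⟩
  · rintro ⟨⟨a, b⟩, ⟨ha, hb, hab⟩, rfl⟩
    exact ⟨hab, a, ha, b, hb, rfl⟩

theorem injOn_mk {V : Type u} (H : SimpleGraph V) (A : Finset V) :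
    Set.InjOn (fun p : V × V => s(p.1, p.2)) {p | p.1 ∈ A ∧ p.2 ∉ A ∧ H.Adj p.1 p.2} := by
  rintro ⟨a, b⟩ ⟨ha, hb, -⟩ ⟨c, d⟩ ⟨hc, hd, -⟩ h
  simp only [Sym2.eq_iff] at h
  rcases h with ⟨rfl, rfl⟩ | ⟨rfl, rfl⟩
  · rfl
  · exact absurd ha hd

theorem ncard_edgeBoundary {V : Type u} (H : SimpleGraph V) (A : Finset V) :
    (edgeBoundary H A).ncard = {p : V × V | p.1 ∈ A ∧ p.2 ∉ A ∧ H.Adj p.1 p.2}.ncard := by
  rw [edgeBoundary_eq, (injOn_mk H A).ncard_image]

theorem cheeger_le {V : Type u} (H : SimpleGraph V) (A : Finset V) (hA : A.Nonempty) :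
    cheeger H ≤ ((edgeBoundary H A).ncard : ℝ) / (A.card : ℝ) := by
  apply csInf_le
  · refine ⟨0, ?_⟩
    rintro r ⟨B, -, rfl⟩
    positivity
  · exact ⟨A, hA, rfl⟩

theorem le_cheeger {V : Type u} [Nonempty V] (H : SimpleGraph V) (c : ℝ)
    (h : ∀ A : Finset V, A.Nonempty → c * A.card ≤ ((edgeBoundary H A).ncard : ℝ)) :
    c ≤ cheeger H := by
  apply le_csInf
  · obtain ⟨v⟩ := ‹Nonempty V›
    exact ⟨_, {v}, Finset.singleton_nonempty v, rfl⟩
  · rintro r ⟨A, hA, rfl⟩
    have : (0 : ℝ) < A.card := by exact_mod_cast hA.card_pos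
    rw [le_div_iff₀ this]
    exact h A hA

/-- The target of a letter step combined with a choice of a clique point. -/
def tgt {m : ℕ} (t : (F × Fin m) × (Letter × Fin m)) : F × Fin m := (ev t.2.1 * t.1.1, t.2.2)

theorem boundary_lower {m : ℕ} (A : Finset (F × Fin m)) :
    2 * m * A.card ≤
      {p : (F × Fin m) × (F × Fin m) | p.1 ∈ A ∧ p.2 ∉ A ∧ (blowUp m).Adj p.1 p.2}.ncard := by
  classical
  set T : Finset ((F × Fin m) × (Letter × Fin m)) := A ×ˢ Finset.univ with hT
  have hTc : T.card = A.card * (4 * m) := by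
    rw [hT, Finset.card_product]
    congr 1
    rw [Finset.card_univ, Fintype.card_prod, Fintype.card_fin]
    rfl
  set T0 := T.filter fun t => tgt t ∉ A with hT0
  set T1 := T.filter fun t => tgt t ∈ A ∧ first (tgt t).1 = some t.2.1 with hT1
  set T2 := T.filter fun t => first t.1.1 = some (linv t.2.1) with hT2
  have hcover : T ⊆ T0 ∪ (T1 ∪ T2) := by
    intro t ht
    simp only [Finset.mem_union, hT0, hT1, hT2, Finset.mem_filter]
    by_cases h : tgt t ∈ A
    · right
      rcases first_mul t.2.1 t.1.1 with h1 | h1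
      · exact Or.inl ⟨ht, h, h1⟩
      · exact Or.inr ⟨ht, h1⟩
    · exact Or.inl ⟨ht, h⟩
  have h1 : T1.card ≤ A.card * m := by
    have : T1.card ≤ (A ×ˢ (Finset.univ : Finset (Fin m))).card := by
      apply Finset.card_le_card_of_injOn (fun t => (tgt t, t.1.2))
      · intro t ht
        have ht' := (Finset.mem_filter.mp (Finset.mem_coe.mp ht)).2
        exact Finset.mem_coe.mpr (Finset.mem_product.mpr ⟨ht'.1, Finset.mem_univ _⟩)
      · rintro ⟨⟨u, i⟩, ⟨l, j⟩⟩ ht ⟨⟨u', i'⟩, ⟨l', j'⟩⟩ ht' h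
        have ht1 := (Finset.mem_filter.mp (Finset.mem_coe.mp ht)).2.2
        have ht1' := (Finset.mem_filter.mp (Finset.mem_coe.mp ht')).2.2
        simp only [Prod.mk.injEq] at h
        obtain ⟨h2, h3⟩ := h
        rw [h2] at ht1
        rw [ht1] at ht1'
        simp only [Option.some.injEq] at ht1'
        subst ht1'
        simp only [tgt, Prod.mk.injEq, mul_right_inj] at h2
        obtain ⟨h4, h5⟩ := h2
        subst h4 h5 h3
        rfl
    rwa [Finset.card_product, Finset.card_univ, Fintype.card_fin] at this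
  have h2 : T2.card ≤ A.card * m := by
    have : T2.card ≤ (A ×ˢ (Finset.univ : Finset (Fin m))).card := by
      apply Finset.card_le_card_of_injOn (fun t => (t.1, t.2.2))
      · intro t ht
        have ht' := (Finset.mem_filter.mp (Finset.mem_coe.mp ht)).1
        exact Finset.mem_coe.mpr
          (Finset.mem_product.mpr ⟨(Finset.mem_product.mp ht').1, Finset.mem_univ _⟩)
      · rintro ⟨⟨u, i⟩, ⟨l, j⟩⟩ ht ⟨⟨u', i'⟩, ⟨l', j'⟩⟩ ht' h
        have ht1 := (Finset.mem_filter.mp (Finset.mem_coe.mp ht)).2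
        have ht1' := (Finset.mem_filter.mp (Finset.mem_coe.mp ht')).2
        simp only [Prod.mk.injEq] at h
        obtain ⟨⟨h2, h3⟩, h4⟩ := h
        subst h2 h3 h4
        simp only at ht1 ht1'
        rw [ht1] at ht1'
        simp only [Option.some.injEq, linv, Prod.mk.injEq] at ht1'
        have : l = l' := by
          apply Prod.ext ht1'.1
          have := ht1'.2
          revert this
          cases l.2 <;> cases l'.2 <;> simp
        rw [this]
    rwa [Finset.card_product, Finset.card_univ, Fintype.card_fin] at this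
  have h0 : T0.card ≤
      {p : (F × Fin m) × (F × Fin m) | p.1 ∈ A ∧ p.2 ∉ A ∧ (blowUp m).Adj p.1 p.2}.ncard := by
    rw [← Set.ncard_coe_finset]
    refine Set.ncard_le_ncard_of_injOn (fun t => (t.1, tgt t)) ?_ ?_ ?_
    · intro t ht
      have ht' := Finset.mem_filter.mp (Finset.mem_coe.mp ht)
      exact ⟨(Finset.mem_product.mp ht'.1).1, ht'.2, Or.inr ⟨t.2.1, rfl⟩⟩
    · rintro ⟨⟨u, i⟩, ⟨l, j⟩⟩ - ⟨⟨u', i'⟩, ⟨l', j'⟩⟩ - h
      simp only [tgt, Prod.mk.injEq] at h
      obtain ⟨⟨h2, h3⟩, h4, h5⟩ := h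
      subst h2 h3 h5
      have := ev_injective (mul_right_cancel h4)
      rw [this]
    · refine ((A.finite_toSet.biUnion (t := fun p => (fun q => (p, q)) ''
        (blowUp m).neighborSet p) fun p _ => (locallyFinite m p).image _)).subset ?_
      rintro ⟨p, q⟩ ⟨hp, -, hq⟩
      exact Set.mem_biUnion hp ⟨q, hq, rfl⟩
  have h3 := Finset.card_le_card hcover
  have h4 := Finset.card_union_le T0 (T1 ∪ T2)
  have h5 := Finset.card_union_le T1 T2
  nlinarith [h0, h1, h2, h3, h4, h5, hTc]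

theorem cheeger_blowUp {m : ℕ} (hm : 0 < m) : (2 * m : ℝ) ≤ cheeger (blowUp m) := by
  have : Nonempty (F × Fin m) := ⟨(1, ⟨0, hm⟩)⟩
  apply le_cheeger
  intro A _
  rw [ncard_edgeBoundary]
  exact_mod_cast boundary_lower A

theorem cheeger_net {m k : ℕ} (hm : 0 < m) (hk : 2 ≤ k) {S : Set (F × Fin m)}
    (hS : IsNet (blowUp m) k S) : cheeger (netGraph (blowUp m) k S) ≤ 5 ^ (2 * k) := by
  classical
  have : Nonempty (F × Fin m) := ⟨(1, ⟨0, hm⟩)⟩
  obtain ⟨s, hs⟩ := net_nonempty hS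
  refine (cheeger_le _ {⟨s, hs⟩} (Finset.singleton_nonempty _)).trans ?_
  rw [Finset.card_singleton, Nat.cast_one, div_one, ncard_edgeBoundary]
  have h1 : {p : S × S | p.1 ∈ ({⟨s, hs⟩} : Finset S) ∧ p.2 ∉ ({⟨s, hs⟩} : Finset S) ∧
      (netGraph (blowUp m) k S).Adj p.1 p.2}.ncard ≤ (ball (2 * k) s.1 : Set F).ncard := by
    refine Set.ncard_le_ncard_of_injOn (fun p => (p.2 : F × Fin m).1) ?_ ?_ ?_
    · rintro ⟨a, b⟩ ⟨ha, -, hab⟩
      have ha' : a = ⟨s, hs⟩ := Finset.mem_singleton.mp ha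
      subst ha'
      have h2 := hab.2
      rw [SimpleGraph.dist_comm] at h2
      exact Finset.mem_coe.mpr (mem_ball_of_dist hm h2)
    · rintro ⟨a, b⟩ ⟨ha, -, -⟩ ⟨c, d⟩ ⟨hc, -, -⟩ h
      have ha' : a = ⟨s, hs⟩ := Finset.mem_singleton.mp ha
      have hc' : c = ⟨s, hs⟩ := Finset.mem_singleton.mp hc
      have hbd : b = d := Subtype.ext (net_fiber hk hS b.2 d.2 h)
      rw [ha', hc', hbd]
    · exact Finset.finite_toSet _
  rw [Set.ncard_coe_finset] at h1
  exact_mod_cast h1.trans (card_ball _ _)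

/-- For every `k ≥ 2` and every `C > 0` there is an infinite vertex-transitive graph `G` which has
`k`-nets and all of whose `k`-net graphs `G_k` satisfy `h(G_k) < C h(G)`. -/
theorem result (k : ℕ) (hk : 2 ≤ k) (C : ℝ) (hC : 0 < C) :
    ∃ (V : Type) (G : SimpleGraph V), Infinite V ∧ G.Connected ∧
      (∀ v, (G.neighborSet v).Finite) ∧ (∀ u v, ∃ φ : G ≃g G, φ u = v) ∧
      (∃ S, IsNet G k S) ∧ ∀ S, IsNet G k S → cheeger (netGraph G k S) < C * cheeger G := by
  obtain ⟨m, hm⟩ := exists_nat_gt ((5 : ℝ) ^ (2 * k) / C)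
  have hm0 : 0 < m := by
    have : (0 : ℝ) < m := lt_of_le_of_lt (by positivity) hm
    exact_mod_cast this
  refine ⟨F × Fin m, blowUp m, ?_, connected hm0, locallyFinite m, transitive m,
    exists_net _ _, ?_⟩
  · have : Nonempty (Fin m) := ⟨⟨0, hm0⟩⟩
    exact Prod.infinite_of_left
  · intro S hS
    refine (cheeger_net hm0 hk hS).trans_lt ?_
    rw [div_lt_iff₀ hC] at hm
    have h1 := cheeger_blowUp hm0
    have h2 : (0 : ℝ) < m := by exact_mod_cast hm0
    nlinarith

end Pool.Agent.Results.MP_2d87f2_co.NetCheeger
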